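import Mathlib
set_option autoImplicit false

/-! The lower bound for the rank. -/

open scoped Classical Pointwise

namespace V5helper1.SR

/-- **Sharp rank**, lower bound -/
theorem lower (m N : ℕ) : ∃ A : Finset (Fin m → ℤ), A.Nonempty ∧
    (A + A).card ≤ 2 ^ m * A.card ∧
    ∀ S T : Finset (Fin m → ℤ), S.card < m →
      (∀ a ∈ A, ∃ t ∈ T, a - t ∈ AddSubgroup.closure (S : Set (Fin m → ℤ))) → N ≤ T.card := by
  set n := N + 1 with hn
  set A : Finset (Fin m → ℤ) := Fintype.piFinset (fun _ => Finset.Ico (0 : ℤ) n) with hA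
  have hmem : ∀ x, x ∈ A ↔ ∀ i, 0 ≤ x i ∧ x i < n := by
    intro x
    rw [hA, Fintype.mem_piFinset]
    simp only [Finset.mem_Ico]
  refine ⟨A, ⟨0, (hmem 0).2 fun i => ⟨le_rfl, by simp only [Pi.zero_apply]; positivity⟩⟩, ?_, ?_⟩
  · have h1 : A + A ⊆ Fintype.piFinset (fun _ : Fin m => Finset.Ico (0 : ℤ) (2 * n)) := by
      intro z hz
      obtain ⟨x, hx, y, hy, rfl⟩ := Finset.mem_add.1 hz
      rw [Fintype.mem_piFinset]
      intro i
      have hx' := (hmem x).1 hx i
      have hy' := (hmem y).1 hy i
      rw [Finset.mem_Ico, Pi.add_apply]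
      constructor <;> linarith
    refine (Finset.card_le_card h1).trans ?_
    rw [Fintype.card_piFinset, hA, Fintype.card_piFinset]
    simp only [Int.card_Ico, sub_zero, Finset.prod_const, Finset.card_univ, Fintype.card_fin]
    rw [← mul_pow]
    apply le_of_eq
    congr 1
  · intro S T hS hT
    -- a linear functional vanishing on `S`
    obtain ⟨c, hc0, hc⟩ : ∃ c : Fin m → ℚ, c ≠ 0 ∧ ∀ s ∈ S, ∑ i, c i * (s i : ℚ) = 0 := by
      set f : (Fin m → ℚ) →ₗ[ℚ] (S → ℚ) :=
        LinearMap.pi (fun s => ∑ i, ((s : Fin m → ℤ) i : ℚ) • LinearMap.proj i) with hf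
      have h1 : LinearMap.ker f ≠ ⊥ := by
        apply LinearMap.ker_ne_bot_of_finrank_lt
        rw [Module.finrank_fintype_fun_eq_card, Module.finrank_fintype_fun_eq_card,
          Fintype.card_coe, Fintype.card_fin]
        exact hS
      obtain ⟨c, hc, hc0⟩ := Submodule.exists_mem_ne_zero_of_ne_bot h1
      refine ⟨c, hc0, fun s hs => ?_⟩
      have h2 := congrFun (LinearMap.mem_ker.1 hc) ⟨s, hs⟩
      simp only [hf, LinearMap.pi_apply, LinearMap.sum_apply, LinearMap.smul_apply,
        LinearMap.proj_apply, smul_eq_mul, Pi.zero_apply] at h2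
      rw [← h2]
      exact Finset.sum_congr rfl fun i _ => mul_comm _ _
    obtain ⟨i, hi⟩ : ∃ i, c i ≠ 0 := by
      by_contra hcon
      push Not at hcon
      exact hc0 (funext hcon)
    have hcl : ∀ v ∈ AddSubgroup.closure (S : Set (Fin m → ℤ)), ∑ j, c j * (v j : ℚ) = 0 := by
      intro v hv
      induction hv using AddSubgroup.closure_induction with
      | mem x hx => exact hc x hx
      | zero => simp
      | add x y _ _ hx hy =>
        simp only [Pi.add_apply, Int.cast_add, mul_add, Finset.sum_add_distrib, hx, hy, add_zero]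
      | neg x _ hx =>
        simp only [Pi.neg_apply, Int.cast_neg, mul_neg, Finset.sum_neg_distrib, hx, neg_zero]
    -- the points on an axis
    set p : ℕ → (Fin m → ℤ) := fun j => Pi.single i (j : ℤ) with hp
    have hpA : ∀ j, j < n → p j ∈ A := by
      intro j hj
      rw [hmem]
      intro l
      by_cases hl : l = i
      · subst hl
        simp only [hp, Pi.single_eq_same]
        constructor
        · positivity
        · exact_mod_cast hj
      · simp only [hp, Pi.single_eq_of_ne hl]
        constructor
        · exact le_rfl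
        · positivity
    have hch : ∀ j : ℕ, ∃ t, j < n → (t ∈ T ∧
        p j - t ∈ AddSubgroup.closure (S : Set (Fin m → ℤ))) := by
      intro j
      by_cases hj : j < n
      · obtain ⟨t, ht, h⟩ := hT _ (hpA j hj)
        exact ⟨t, fun _ => ⟨ht, h⟩⟩
      · exact ⟨0, fun h => absurd h hj⟩
    choose t ht using hch
    have hinj : Set.InjOn t (Finset.range n : Set ℕ) := by
      intro j hj l hl h
      have hj' := ht j (Finset.mem_range.1 (Finset.mem_coe.1 hj))
      have hl' := ht l (Finset.mem_range.1 (Finset.mem_coe.1 hl))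
      have h1 : p j - p l ∈ AddSubgroup.closure (S : Set (Fin m → ℤ)) := by
        have e1 : p j - p l = (p j - t j) - (p l - t l) := by rw [h]; abel
        rw [e1]
        exact AddSubgroup.sub_mem _ hj'.2 hl'.2
      have h2 := hcl _ h1
      rw [Finset.sum_eq_single i] at h2
      · rcases mul_eq_zero.1 h2 with h3 | h3
        · exact absurd h3 hi
        · simp only [hp, Pi.sub_apply, Pi.single_eq_same] at h3
          have h4 : ((j : ℤ) - (l : ℤ)) = 0 := by exact_mod_cast h3
          have h5 : (j : ℤ) = l := sub_eq_zero.1 h4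
          exact_mod_cast h5
      · intro b _ hb
        simp only [hp, Pi.sub_apply, Pi.single_eq_of_ne hb, sub_self, Int.cast_zero, mul_zero]
      · intro h
        exact absurd (Finset.mem_univ _) h
    have h1 : (Finset.range n).card ≤ T.card :=
      Finset.card_le_card_of_injOn t (fun j hj => (ht j (Finset.mem_range.1 (Finset.mem_coe.1 hj))).1)
        hinj
    rw [Finset.card_range] at h1
    omega

end V5helper1.SR
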