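import Pool.Agent.V5helper1.SR.Quot
import Pool.Agent.V5helper1.SR.Lower
set_option autoImplicit false

/-! The sharp rank in arbitrary abelian groups. -/

open scoped Classical Pointwise

namespace V5helper1.SR

/-- lifting a covering from a quotient -/
theorem lift_cover {Γ Q : Type*} [AddCommGroup Γ] [AddCommGroup Q] (π : Γ →+ Q)
    (hsurj : Function.Surjective π) (hker : ∀ x, π x = 0 → ∃ n : ℕ, n ≠ 0 ∧ n • x = 0)
    (A : Finset Γ) (S T : Finset Q) (hTA : T ⊆ A.image π)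
    (hcov : ∀ a ∈ A.image π, ∃ t ∈ T, a - t ∈ AddSubgroup.closure (S : Set Q)) :
    ∃ S' T' : Finset Γ, S'.card ≤ S.card ∧ T' ⊆ A ∧ T'.card ≤ T.card ∧
      ∀ a ∈ A, ∃ t ∈ T', ∃ o : Γ, (∃ n : ℕ, n ≠ 0 ∧ n • o = 0) ∧
        a - t - o ∈ AddSubgroup.closure (S' : Set Γ) := by
  choose s hs using hsurj
  have hrep : ∀ c : Q, ∃ z : Γ, c ∈ A.image π → (z ∈ A ∧ π z = c) := by
    intro c
    by_cases hc : c ∈ A.image π
    · obtain ⟨z, hz, h⟩ := Finset.mem_image.1 hc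
      exact ⟨z, fun _ => ⟨hz, h⟩⟩
    · exact ⟨0, fun h => absurd h hc⟩
  choose r hr using hrep
  refine ⟨S.image s, T.image r, Finset.card_image_le, ?_, Finset.card_image_le, ?_⟩
  · intro z hz
    obtain ⟨t, ht, rfl⟩ := Finset.mem_image.1 hz
    exact (hr t (hTA ht)).1
  · intro a ha
    obtain ⟨t, ht, hat⟩ := hcov _ (Finset.mem_image_of_mem π ha)
    refine ⟨r t, Finset.mem_image_of_mem _ ht, ?_⟩
    have h1 : AddSubgroup.closure (S : Set Q) ≤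
        (AddSubgroup.closure ((S.image s : Finset Γ) : Set Γ)).map π := by
      rw [AddSubgroup.closure_le]
      intro y hy
      refine AddSubgroup.mem_map.2 ⟨s y, AddSubgroup.subset_closure ?_, hs y⟩
      exact Finset.mem_coe.2 (Finset.mem_image_of_mem _ (Finset.mem_coe.1 hy))
    obtain ⟨z, hz, hzπ⟩ := AddSubgroup.mem_map.1 (h1 hat)
    refine ⟨a - r t - z, hker _ ?_, ?_⟩
    · rw [map_sub, map_sub, hzπ, (hr t (hTA ht)).2, sub_self]
    · have e1 : a - r t - (a - r t - z) = z := by abel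
      rw [e1]
      exact hz

/-- **Sharp rank**, upper bound, for a homomorphism to a torsion-free group -/
theorem upper_hom {Γ Q : Type*} [AddCommGroup Γ] [AddCommGroup Q] [IsAddTorsionFree Q]
    (π : Γ →+ Q) (hsurj : Function.Surjective π) (hker : ∀ x, π x = 0 ↔ IsOfFinAddOrder x)
    {K ε : ℝ} {A : Finset Γ} (hA : A.Nonempty)
    (hK : ((A + A).card : ℝ) ≤ K * A.card) (hε0 : 0 < ε) (hε1 : ε ≤ 1) :
    ∃ S T : Finset Γ, (S.card : ℝ) ≤ (1 + ε) * Real.logb 2 K ∧ T ⊆ A ∧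
      (T.card : ℝ) ≤ K ^ (2400 / ε ^ 2) ∧
      ∀ a ∈ A, ∃ t ∈ T, ∃ o : Γ, (∃ n : ℕ, n ≠ 0 ∧ n • o = 0) ∧
        a - t - o ∈ AddSubgroup.closure (S : Set Γ) := by
  have hApos : (0 : ℝ) < A.card := by exact_mod_cast hA.card_pos
  have hK1 : 1 ≤ K := by
    have h1 : (A.card : ℝ) ≤ (A + A).card := by
      exact_mod_cast Finset.card_le_card_add_right hA
    nlinarith
  obtain ⟨X₀, hX₀A, hX₀, hX₀K⟩ := quotient_pair π hker hA hK
  obtain ⟨S, T, hS, hTA, hT, hcov⟩ := core hX₀ hX₀A hK1 hε0 hε1 hX₀K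
  obtain ⟨S', T', hS', hT'A, hT', hcov'⟩ :=
    lift_cover π hsurj (fun x hx => by
        have h3 := (hker x).1 hx
        rw [isOfFinAddOrder_iff_nsmul_eq_zero] at h3
        obtain ⟨n, hn, h4⟩ := h3
        exact ⟨n, hn.ne', h4⟩) A S T hTA hcov
  refine ⟨S', T', le_trans ?_ hS, hT'A, le_trans ?_ hT, hcov'⟩
  · exact_mod_cast hS'
  · exact_mod_cast hT'

/-- **Sharp rank**, upper bound -/
theorem upper {Γ : Type*} [AddCommGroup Γ] {K ε : ℝ} {A : Finset Γ} (hA : A.Nonempty)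
    (hK : ((A + A).card : ℝ) ≤ K * A.card) (hε0 : 0 < ε) (hε1 : ε ≤ 1) :
    ∃ S T : Finset Γ, (S.card : ℝ) ≤ (1 + ε) * Real.logb 2 K ∧ T ⊆ A ∧
      (T.card : ℝ) ≤ K ^ (2400 / ε ^ 2) ∧
      ∀ a ∈ A, ∃ t ∈ T, ∃ o : Γ, (∃ n : ℕ, n ≠ 0 ∧ n • o = 0) ∧
        a - t - o ∈ AddSubgroup.closure (S : Set Γ) :=
  upper_hom (QuotientAddGroup.mk' (AddCommGroup.torsion Γ)) (QuotientAddGroup.mk'_surjective _)
    (fun x => QuotientAddGroup.eq_zero_iff (N := AddCommGroup.torsion Γ) x) hA hK hε0 hε1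

end V5helper1.SR
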