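import Pool.Agent.V5helper1.SR.Stage
set_option autoImplicit false

/-! Growth of `2 ^ k X + A`, and the resulting bound for the entropy modulo `2 ^ k M`. -/

open scoped Classical Pointwise
set_option linter.unusedSectionVars false
set_option linter.unusedVariables false

namespace V5helper1.SR

open H137.PFR H137.TwoPow H137.Weak

variable {Q : Type*} [AddCommGroup Q]

/-- a subset with the smallest ratio -/
theorem exists_petridis {X₀ A : Finset Q} (hX₀ : X₀.Nonempty) {K : ℝ}
    (hK : ((X₀ + A).card : ℝ) ≤ K * X₀.card) :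
    ∃ X ⊆ X₀, X.Nonempty ∧ ((X + A).card : ℝ) ≤ K * X.card ∧
      ∀ A' ⊆ X, (X + A).card * A'.card ≤ (A' + A).card * X.card := by
  obtain ⟨X, hX, hmin⟩ := Finset.exists_min_image (X₀.powerset.erase ∅)
    (fun U => ((U + A).card : ℝ) / U.card)
    ⟨X₀, Finset.mem_erase_of_ne_of_mem hX₀.ne_empty (Finset.mem_powerset_self _)⟩
  rw [Finset.mem_erase, Finset.mem_powerset, ← Finset.nonempty_iff_ne_empty] at hX
  obtain ⟨hXne, hXX₀⟩ := hX
  have hXc : (0 : ℝ) < X.card := by exact_mod_cast hXne.card_pos
  have hX₀c : (0 : ℝ) < X₀.card := by exact_mod_cast hX₀.card_pos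
  refine ⟨X, hXX₀, hXne, ?_, ?_⟩
  · have h1 := hmin X₀ (Finset.mem_erase_of_ne_of_mem hX₀.ne_empty (Finset.mem_powerset_self _))
    have h2 : ((X₀ + A).card : ℝ) / X₀.card ≤ K := by
      rw [div_le_iff₀ hX₀c]; exact hK
    have h3 := h1.trans h2
    rwa [div_le_iff₀ hXc] at h3
  · intro A' hA'
    obtain rfl | hne := A'.eq_empty_or_nonempty
    · simp
    have hA'c : (0 : ℝ) < A'.card := by exact_mod_cast hne.card_pos
    have h1 := hmin A' (Finset.mem_erase_of_ne_of_mem hne.ne_empty
      (Finset.mem_powerset.2 (hA'.trans hXX₀)))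
    rw [div_le_div_iff₀ hXc hA'c] at h1
    exact_mod_cast h1

/-- the chain of dilates -/
theorem grow {X A : Finset Q} (hXA : X ⊆ A) {K : ℝ} (hK0 : 0 ≤ K)
    (hinj : Function.Injective (fun x : Q => (2 : ℕ) • x))
    (hXne : X.Nonempty) (hX : ((X + A).card : ℝ) ≤ K * X.card)
    (hmin : ∀ A' ⊆ X, (X + A).card * A'.card ≤ (A' + A).card * X.card) (k : ℕ) :
    ((A + X.image (fun x : Q => (2 ^ k) • x)).card : ℝ) ≤ K ^ (k + 1) * X.card := by
  have hXc : (0 : ℝ) < X.card := by exact_mod_cast hXne.card_pos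
  have hinjk : ∀ j : ℕ, Function.Injective (fun x : Q => (2 ^ j) • x) := by
    intro j
    induction j with
    | zero =>
      intro x y h
      simpa using h
    | succ j ih =>
      intro x y h
      simp only [pow_succ, mul_smul] at h
      exact hinj (ih h)
  induction k with
  | zero =>
    have h1 : X.image (fun x : Q => (2 ^ 0) • x) = X := by
      simp
    rw [h1, zero_add, pow_one, add_comm]
    exact hX
  | succ k ih =>
    set φ : Q →+ Q := nsmulAddMonoidHom (2 ^ k) with hφ
    have hφi : Function.Injective φ := hinjk k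
    have himX : X.image (fun x : Q => (2 ^ k) • x) = X.image φ := rfl
    rw [himX] at ih
    have hsub : A + X.image (fun x : Q => (2 ^ (k + 1)) • x) ⊆ A + X.image φ + A.image φ := by
      intro z hz
      obtain ⟨a, ha, y, hy, rfl⟩ := Finset.mem_add.1 hz
      obtain ⟨x, hx, rfl⟩ := Finset.mem_image.1 hy
      have e1 : (2 ^ (k + 1)) • x = φ x + φ x := by
        change (2 ^ (k + 1)) • x = (2 ^ k) • x + (2 ^ k) • x
        rw [pow_succ, mul_two, add_smul]
      change a + (2 ^ (k + 1)) • x ∈ _
      rw [e1, ← add_assoc]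
      exact Finset.add_mem_add (Finset.add_mem_add ha (Finset.mem_image_of_mem _ hx))
        (Finset.mem_image_of_mem _ (hXA hx))
    have hcardX : (X.image φ).card = X.card := Finset.card_image_of_injective _ hφi
    have hcardXA : (X.image φ + A.image φ).card = (X + A).card := by
      rw [← Finset.image_add, Finset.card_image_of_injective _ hφi]
    have hpet := Finset.pluennecke_petridis_inequality_add (A := X.image φ) (B := A.image φ) A
      (by
        intro A' hA'
        obtain ⟨A'', hA'', rfl⟩ : ∃ A'' ⊆ X, A''.image φ = A' := by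
          refine ⟨X.filter (fun x => φ x ∈ A'), Finset.filter_subset _ _, ?_⟩
          ext y
          rw [Finset.mem_image]
          constructor
          · rintro ⟨x, hx, rfl⟩
            exact (Finset.mem_filter.1 hx).2
          · intro hy
            obtain ⟨x, hx, rfl⟩ := Finset.mem_image.1 (hA' hy)
            exact ⟨x, Finset.mem_filter.2 ⟨hx, hy⟩, rfl⟩
        rw [hcardXA, hcardX, ← Finset.image_add, Finset.card_image_of_injective _ hφi,
          Finset.card_image_of_injective _ hφi]
        exact hmin A'' hA'')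
    rw [hcardXA, hcardX] at hpet
    have h1 : ((A + X.image φ + A.image φ).card : ℝ) * X.card ≤
        (X + A).card * (A + X.image φ).card := by exact_mod_cast hpet
    have h2 : ((A + X.image φ + A.image φ).card : ℝ) * X.card ≤
        (K ^ (k + 1 + 1) * X.card) * X.card := by
      calc ((A + X.image φ + A.image φ).card : ℝ) * X.card
          ≤ (X + A).card * (A + X.image φ).card := h1
        _ ≤ (K * X.card) * (K ^ (k + 1) * X.card) :=
            mul_le_mul hX ih (Nat.cast_nonneg _) (by positivity)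
        _ = _ := by ring
    have h3 := le_of_mul_le_mul_right h2 hXc
    refine le_trans ?_ h3
    exact_mod_cast Finset.card_le_card hsub

/-- **Growth.** The entropy of `X` modulo `2 ^ k M` is at most `(k + 1) log K` larger than the
entropy modulo `M`. -/
theorem entropy_grow {X A : Finset Q} (hXA : X ⊆ A) {K : ℝ} (hK1 : 1 ≤ K)
    (hinj : Function.Injective (fun x : Q => (2 : ℕ) • x))
    (hXne : X.Nonempty) (hX : ((X + A).card : ℝ) ≤ K * X.card)
    (hmin : ∀ A' ⊆ X, (X + A).card * A'.card ≤ (A' + A).card * X.card) (k : ℕ)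
    (M : AddSubgroup Q) :
    hh (uw X) (fun ω : X => (ω : Q)) (M.map (nsmulAddMonoidHom (2 ^ k))) ≤
      hh (uw X) (fun ω : X => (ω : Q)) M + (k + 1) * Real.log K := by
  have hXc : (0 : ℝ) < X.card := by exact_mod_cast hXne.card_pos
  have hK0 : 0 < K := by linarith
  have hinjk : ∀ j : ℕ, Function.Injective (fun x : Q => (2 ^ j) • x) := by
    intro j
    induction j with
    | zero =>
      intro x y h
      simpa using h
    | succ j ih =>
      intro x y h
      simp only [pow_succ, mul_smul] at h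
      exact hinj (ih h)
  set N := M.map (nsmulAddMonoidHom (α := Q) (2 ^ k)) with hN
  obtain ⟨x₀, hx₀, hpop⟩ := exists_popular hXne M
  set F := fib X M x₀ with hF
  -- classes modulo `N`
  set C : Finset (Q ⧸ N) := X.image (fun x : Q => (x : Q ⧸ N)) with hC
  have h1 : hh (uw X) (fun ω : X => (ω : Q)) N ≤ Real.log C.card :=
    Hg_le_log_card (law_uw hXne) (fun ω : X => ((ω : Q) : Q ⧸ N)) C
      (fun ω => Finset.mem_image_of_mem _ ω.2)
  -- representatives
  have hrep : ∀ c : Q ⧸ N, ∃ x : Q, c ∈ C → (x ∈ X ∧ (x : Q ⧸ N) = c) := by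
    intro c
    by_cases hc : c ∈ C
    · obtain ⟨x, hx, h⟩ := Finset.mem_image.1 hc
      exact ⟨x, fun _ => ⟨hx, h⟩⟩
    · exact ⟨0, fun h => absurd h hc⟩
  choose r hr using hrep
  have hcount : C.card * F.card ≤ (A + X.image (fun x : Q => (2 ^ k) • x)).card := by
    rw [← Finset.card_product]
    refine Finset.card_le_card_of_injOn (fun p => r p.1 + (2 ^ k) • p.2) ?_ ?_
    · intro p hp
      obtain ⟨hp1, hp2⟩ := Finset.mem_product.1 (Finset.mem_coe.1 hp)
      exact Finset.mem_coe.2 (Finset.add_mem_add (hXA (hr _ hp1).1)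
        (Finset.mem_image_of_mem _ (mem_fib.1 hp2).1))
    · intro p hp q hq h
      obtain ⟨hp1, hp2⟩ := Finset.mem_product.1 (Finset.mem_coe.1 hp)
      obtain ⟨hq1, hq2⟩ := Finset.mem_product.1 (Finset.mem_coe.1 hq)
      simp only at h
      have h3 : (r p.1 : Q ⧸ N) = r q.1 := by
        rw [QuotientAddGroup.eq]
        have h4 : -r p.1 + r q.1 = (2 ^ k) • (p.2 - q.2) := by
          rw [smul_sub]
          have h5 : r p.1 + (2 ^ k) • p.2 = r q.1 + (2 ^ k) • q.2 := h
          have h6 : (2 ^ k) • p.2 = -r p.1 + (r q.1 + (2 ^ k) • q.2) := by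
            rw [← h5]; abel
          rw [h6]; abel
        rw [h4]
        refine AddSubgroup.mem_map.2 ⟨p.2 - q.2, ?_, rfl⟩
        have e1 : p.2 - q.2 = (-x₀ + p.2) - (-x₀ + q.2) := by abel
        rw [e1]
        exact M.sub_mem (mem_fib.1 hp2).2 (mem_fib.1 hq2).2
      have h4 : p.1 = q.1 := by
        rw [← (hr _ hp1).2, ← (hr _ hq1).2, h3]
      rw [h4] at h
      exact Prod.ext h4 (hinjk k (add_left_cancel h))
  have hgrow := grow hXA hK0.le hinj hXne hX hmin k
  have hCne : C.Nonempty := Finset.image_nonempty.2 hXne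
  have hCc : (0 : ℝ) < C.card := by exact_mod_cast hCne.card_pos
  have h2 : (C.card : ℝ) * (Real.exp (-hh (uw X) (fun ω : X => (ω : Q)) M) * X.card) ≤
      K ^ (k + 1) * X.card := by
    calc (C.card : ℝ) * (Real.exp (-hh (uw X) (fun ω : X => (ω : Q)) M) * X.card)
        ≤ C.card * F.card := mul_le_mul_of_nonneg_left hpop hCc.le
      _ ≤ ((A + X.image (fun x : Q => (2 ^ k) • x)).card : ℝ) := by exact_mod_cast hcount
      _ ≤ K ^ (k + 1) * X.card := hgrow
  have h3 : (C.card : ℝ) * Real.exp (-hh (uw X) (fun ω : X => (ω : Q)) M) ≤ K ^ (k + 1) := by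
    refine le_of_mul_le_mul_right ?_ hXc
    rw [mul_assoc]
    exact h2
  have h4 := Real.log_le_log (by positivity) h3
  rw [Real.log_mul hCc.ne' (Real.exp_pos _).ne', Real.log_exp, Real.log_pow] at h4
  push_cast at h4
  linarith

end V5helper1.SR
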