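import Pool.Agent.V5helper1.SR.Grow
set_option autoImplicit false

/-! The sharp rank in the weak polynomial Freiman-Ruzsa theorem. -/

open scoped Classical Pointwise
set_option linter.unusedSectionVars false
set_option linter.unusedVariables false

namespace V5helper1.SR

open H137.PFR H137.TwoPow H137.Weak

/-- numerical choices -/
theorem choose_k {ε : ℝ} (hε0 : 0 < ε) (hε1 : ε ≤ 1) :
    ∃ k : ℕ, 0 < k ∧ 98 * (k : ℝ) + 2 ≤ 1182 / ε ^ 2 ∧
      (1 + (98 * (k : ℝ) + 2) / (1182 / ε ^ 2)) * (k + 1) ≤ (1 + ε) * k := by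
  refine ⟨⌈3 / ε⌉₊, Nat.ceil_pos.2 (by positivity), ?_⟩
  set k := ⌈3 / ε⌉₊ with hk
  have h1 : 3 / ε ≤ k := Nat.le_ceil _
  have h2 : (k : ℝ) < 3 / ε + 1 := Nat.ceil_lt_add_one (by positivity)
  have h3 : 1 ≤ 1 / ε := by rw [le_div_iff₀ hε0]; linarith
  have h4 : (k : ℝ) ≤ 4 / ε := by
    have : 4 / ε = 3 / ε + 1 / ε := by ring
    linarith
  have h5 : 98 * (k : ℝ) + 2 ≤ 394 / ε := by
    have e1 : 394 / ε = 98 * (4 / ε) + 2 * (1 / ε) := by ring
    linarith
  have h6 : (98 * (k : ℝ) + 2) / (1182 / ε ^ 2) ≤ ε / 3 := by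
    rw [div_le_iff₀ (by positivity)]
    have e1 : ε / 3 * (1182 / ε ^ 2) = 394 / ε := by
      field_simp
      norm_num
    rw [e1]; exact h5
  have hk0 : (0 : ℝ) < k := lt_of_lt_of_le (by positivity) h1
  have h7 : 3 ≤ ε * k := by
    rw [div_le_iff₀ hε0] at h1
    linarith
  refine ⟨?_, ?_⟩
  · refine h5.trans ?_
    rw [div_le_div_iff₀ hε0 (by positivity)]
    nlinarith
  · have h8 : (1 + (98 * (k : ℝ) + 2) / (1182 / ε ^ 2)) * (k + 1) ≤ (1 + ε / 3) * (k + 1) := by
      apply mul_le_mul_of_nonneg_right _ (by positivity)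
      linarith
    refine h8.trans ?_
    nlinarith

/-- the theorem in a torsion-free group, for a pair of sets -/
theorem core {Q : Type*} [AddCommGroup Q] [IsAddTorsionFree Q] {X₀ A : Finset Q} (hX₀ : X₀.Nonempty)
    (hX₀A : X₀ ⊆ A) {K ε : ℝ} (hK1 : 1 ≤ K) (hε0 : 0 < ε) (hε1 : ε ≤ 1)
    (hK : ((X₀ + A).card : ℝ) ≤ K * X₀.card) :
    ∃ S T : Finset Q, (S.card : ℝ) ≤ (1 + ε) * Real.logb 2 K ∧ T ⊆ A ∧
      (T.card : ℝ) ≤ K ^ (2400 / ε ^ 2) ∧
      ∀ a ∈ A, ∃ t ∈ T, a - t ∈ AddSubgroup.closure (S : Set Q) := by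
  have hK0 : 0 < K := by linarith
  have hlogK : 0 ≤ Real.log K := Real.log_nonneg hK1
  obtain ⟨X, hXX₀, hXne, hX, hmin⟩ := exists_petridis hX₀ hK
  have hXA : X ⊆ A := hXX₀.trans hX₀A
  have hXc : (0 : ℝ) < X.card := by exact_mod_cast hXne.card_pos
  have hinj : Function.Injective (fun x : Q => (2 : ℕ) • x) := nsmul_right_injective (by norm_num)
  obtain ⟨k, hk0, hk1, hk2⟩ := choose_k hε0 hε1
  obtain ⟨lam, hlam⟩ : ∃ lam : ℝ, lam = 1182 / ε ^ 2 := ⟨_, rfl⟩
  rw [← hlam] at hk1 hk2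
  have hlam0 : 0 < lam := by rw [hlam]; positivity
  have hw := law_uw hXne
  have hkap : kap (uw X) (fun ω : X => (ω : Q)) ≤ 2 * Real.log K := by
    refine kap_uw hXne hK1 (le_trans ?_ hX)
    exact_mod_cast Finset.card_le_card (Finset.add_subset_add_left hXA)
  obtain ⟨M, hMfg, hMgood, hMmin⟩ := exists_min_good' hw (fun ω : X => (ω : Q)) hlam0.le
  -- rank
  have hfg : AddGroup.FG M := (AddGroup.fg_iff_addSubgroup_fg M).2 hMfg
  have : Module.Finite ℤ M := Module.Finite.iff_addGroup_fg.2 hfg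
  have : Module.Finite ℤ M.toIntSubmodule := ‹Module.Finite ℤ M›
  have : IsAddTorsionFree M := Function.Injective.isAddTorsionFree M.subtype M.subtype_injective
  have : Module.Free ℤ M := inferInstance
  have : Module.Free ℤ M.toIntSubmodule := ‹Module.Free ℤ M›
  have hidx := AddSubgroup.relIndex_map_nsmul (2 ^ k) M
  set r := Module.finrank ℤ M with hr
  set N := M.map (nsmulAddMonoidHom (α := Q) (2 ^ k)) with hN
  have hNM : N ≤ M := by
    intro x hx
    obtain ⟨y, hy, rfl⟩ := AddSubgroup.mem_map.1 hx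
    exact M.nsmul_mem hy _
  have hidx0 : N.relIndex M ≠ 0 := by
    rw [hidx]
    positivity
  have hspread := spread k hw (fun ω : X => (ω : Q)) hlam0 hk1 hMmin (N.relIndex M) N hNM
    (fun x hx => AddSubgroup.mem_map_of_mem _ hx) hidx0 le_rfl
  have hgrow := entropy_grow hXA hK1 hinj hXne hX hmin k M
  rw [← hN] at hgrow
  have hlogidx : Real.log (N.relIndex M) = r * k * Real.log 2 := by
    rw [hidx]
    push_cast
    rw [← pow_mul, Real.log_pow]
    push_cast
    ring
  have hrank : (r : ℝ) ≤ (1 + ε) * Real.logb 2 K := by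
    have hl2 : 0 < Real.log 2 := Real.log_pos (by norm_num)
    have h1 : (r : ℝ) * k * Real.log 2 ≤ (1 + (98 * (k : ℝ) + 2) / lam) * ((k + 1) * Real.log K) := by
      rw [← hlogidx]
      refine hspread.trans ?_
      apply mul_le_mul_of_nonneg_left _ (by positivity)
      linarith
    have h2 : (r : ℝ) * k * Real.log 2 ≤ (1 + ε) * k * Real.log K := by
      refine h1.trans ?_
      calc (1 + (98 * (k : ℝ) + 2) / lam) * ((k + 1) * Real.log K)
          = ((1 + (98 * (k : ℝ) + 2) / lam) * (k + 1)) * Real.log K := by ring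
        _ ≤ ((1 + ε) * k) * Real.log K := mul_le_mul_of_nonneg_right hk2 hlogK
    have hkpos : (0 : ℝ) < k := by exact_mod_cast hk0
    have h3 : (k : ℝ) * ((r : ℝ) * Real.log 2) ≤ k * ((1 + ε) * Real.log K) := by linarith
    have h4 := le_of_mul_le_mul_left h3 hkpos
    rw [Real.logb, mul_div_assoc', le_div_iff₀ hl2]
    exact h4
  -- covering
  obtain ⟨x₀, hx₀, hpop⟩ := exists_popular hXne M
  set F := fib X M x₀ with hF
  have hFne : F.Nonempty := Finset.card_pos.1 (fib_pos hx₀)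
  have hhM : hh (uw X) (fun ω : X => (ω : Q)) M ≤ lam * (2 * Real.log K) := by
    refine hMgood.trans ?_
    apply mul_le_mul_of_nonneg_left _ hlam0.le
    exact (kk_le hw _ M).trans hkap
  have hAF : ((A + F).card : ℝ) ≤ (K * Real.exp (lam * (2 * Real.log K))) * F.card := by
    have h1 : ((A + F).card : ℝ) ≤ (X + A).card := by
      rw [add_comm X A]
      exact_mod_cast Finset.card_le_card (Finset.add_subset_add_left (Finset.filter_subset _ _))
    have h2 : (X.card : ℝ) ≤ Real.exp (lam * (2 * Real.log K)) * F.card := by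
      have h3 : Real.exp (-(lam * (2 * Real.log K))) * X.card ≤ F.card := by
        refine le_trans (mul_le_mul_of_nonneg_right (Real.exp_le_exp.2 ?_) hXc.le) hpop
        linarith
      have h4 : Real.exp (lam * (2 * Real.log K)) * (Real.exp (-(lam * (2 * Real.log K))) * X.card) ≤
          Real.exp (lam * (2 * Real.log K)) * F.card :=
        mul_le_mul_of_nonneg_left h3 (Real.exp_pos _).le
      rw [← mul_assoc, ← Real.exp_add, add_neg_cancel, Real.exp_zero, one_mul] at h4
      exact h4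
    calc ((A + F).card : ℝ) ≤ K * X.card := h1.trans hX
      _ ≤ K * (Real.exp (lam * (2 * Real.log K)) * F.card) := mul_le_mul_of_nonneg_left h2 hK0.le
      _ = _ := by ring
  obtain ⟨T, hTA, hT, hTcov⟩ := Finset.ruzsa_covering_add hFne hAF
  -- generators
  set b := Module.finBasis ℤ M with hb
  refine ⟨Finset.univ.image (fun i => ((b i : M) : Q)), T, ?_, hTA, ?_, ?_⟩
  · refine le_trans ?_ hrank
    have h1 : (Finset.univ.image (fun i => ((b i : M) : Q))).card ≤ r := by
      refine Finset.card_image_le.trans ?_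
      rw [Finset.card_univ, Fintype.card_fin]
    exact_mod_cast h1
  · refine hT.trans ?_
    rw [Real.rpow_def_of_pos hK0]
    have h1 : K * Real.exp (lam * (2 * Real.log K)) = Real.exp (Real.log K + lam * (2 * Real.log K)) := by
      rw [Real.exp_add, Real.exp_log hK0]
    rw [h1]
    apply Real.exp_le_exp.2
    have h2 : 1 ≤ 1 / ε ^ 2 := by
      rw [le_div_iff₀ (by positivity)]
      nlinarith
    have h3 : Real.log K * 1 ≤ Real.log K * (1 / ε ^ 2) := mul_le_mul_of_nonneg_left h2 hlogK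
    have h4 : lam = 1182 * (1 / ε ^ 2) := by rw [hlam]; ring
    have h5 : (0 : ℝ) ≤ Real.log K * (1 / ε ^ 2) := by positivity
    have e1 : Real.log K * (2400 / ε ^ 2) = 2400 * (Real.log K * (1 / ε ^ 2)) := by ring
    have e2 : lam * (2 * Real.log K) = 2364 * (Real.log K * (1 / ε ^ 2)) := by rw [h4]; ring
    rw [e1, e2]
    linarith
  · intro a ha
    obtain ⟨t, ht, z, hz, hzt⟩ := Finset.mem_add.1 (hTcov ha)
    refine ⟨t, ht, ?_⟩
    have hzM : a - t ∈ M := by
      obtain ⟨u, hu, v, hv, huv⟩ := Finset.mem_sub.1 hz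
      have e1 : a - t = (-x₀ + u) - (-x₀ + v) := by
        rw [← hzt, ← huv]; abel
      rw [e1]
      exact M.sub_mem (mem_fib.1 hu).2 (mem_fib.1 hv).2
    have h1 := b.sum_repr ⟨a - t, hzM⟩
    have h2 : a - t = ∑ i, b.repr ⟨a - t, hzM⟩ i • ((b i : M) : Q) := by
      have h3 := congrArg (fun x : M => (x : Q)) h1
      simp only [AddSubgroup.val_finsetSum] at h3
      exact h3.symm
    rw [h2]
    refine AddSubgroup.sum_mem _ fun i _ => ?_
    refine AddSubgroup.zsmul_mem _ (AddSubgroup.subset_closure ?_) _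
    exact Finset.mem_coe.2 (Finset.mem_image_of_mem _ (Finset.mem_univ i))

end V5helper1.SR
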