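import Pool.Agent.V5helper1.SR.Main
set_option autoImplicit false

/-! Passage to the quotient by the torsion subgroup. -/

open scoped Classical Pointwise
set_option linter.unusedSectionVars false
set_option linter.unusedVariables false

namespace V5helper1.SR

/-- a finite set of torsion elements is contained in a finite subgroup -/
theorem finite_closure_torsion {Γ : Type*} [AddCommGroup Γ] (D : Finset Γ)
    (hD : ∀ x ∈ D, IsOfFinAddOrder x) :
    Finite (AddSubgroup.closure (D : Set Γ)) ∧
      ∀ x ∈ AddSubgroup.closure (D : Set Γ), IsOfFinAddOrder x := by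
  have h1 : ∀ x ∈ AddSubgroup.closure (D : Set Γ), IsOfFinAddOrder x := by
    intro x hx
    have h2 : AddSubgroup.closure (D : Set Γ) ≤ AddCommGroup.torsion Γ := by
      rw [AddSubgroup.closure_le]
      intro y hy
      exact hD y (Finset.mem_coe.1 hy)
    exact h2 hx
  refine ⟨?_, h1⟩
  have hfg : AddGroup.FG (AddSubgroup.closure (D : Set Γ)) :=
    (AddGroup.fg_iff_addSubgroup_fg _).2 ⟨D, rfl⟩
  refine AddCommGroup.finite_of_fg_isAddTorsion _ ?_
  intro x
  have h2 := h1 x.1 x.2
  rw [isOfFinAddOrder_iff_nsmul_eq_zero] at h2 ⊢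
  obtain ⟨n, hn, h3⟩ := h2
  exact ⟨n, hn, Subtype.ext h3⟩

/-- the doubling of a pair passes to the quotient by the torsion subgroup -/
theorem quotient_pair {Γ Q : Type*} [AddCommGroup Γ] [AddCommGroup Q] (π : Γ →+ Q)
    (hker : ∀ x, π x = 0 ↔ IsOfFinAddOrder x) {K : ℝ} {A : Finset Γ} (hA : A.Nonempty)
    (hK : ((A + A).card : ℝ) ≤ K * A.card) :
    ∃ X₀ ⊆ A.image π, X₀.Nonempty ∧ ((X₀ + A.image π).card : ℝ) ≤ K * X₀.card := by
  obtain ⟨X, hXA, hXne, hX, hmin⟩ := exists_petridis hA hK
  have hXc : (0 : ℝ) < X.card := by exact_mod_cast hXne.card_pos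
  have hπeq : ∀ x y : Γ, π x = π y ↔ IsOfFinAddOrder (x - y) := by
    intro x y
    rw [← sub_eq_zero, ← map_sub]
    exact hker (x - y)
  -- a finite torsion group
  set D : Finset Γ := (((X + A) - (X + A)) ∪ (X - X)).filter (fun x => IsOfFinAddOrder x) with hD
  obtain ⟨hfin, htor⟩ := finite_closure_torsion D (fun x hx => (Finset.mem_filter.1 hx).2)
  set T₀ := AddSubgroup.closure (D : Set Γ) with hT₀
  set F : Finset Γ := (Set.toFinite (T₀ : Set Γ)).toFinset with hF
  have hmemF : ∀ x, x ∈ F ↔ x ∈ T₀ := fun x => by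
    rw [hF, Set.Finite.mem_toFinset]; rfl
  have hF0 : (0 : Γ) ∈ F := (hmemF 0).2 T₀.zero_mem
  have hFc : (0 : ℝ) < F.card := by exact_mod_cast Finset.card_pos.2 ⟨0, hF0⟩
  have hDXA : ∀ x ∈ X + A, ∀ y ∈ X + A, π x = π y → x - y ∈ F := by
    intro x hx y hy h
    rw [hmemF]
    refine AddSubgroup.subset_closure (Finset.mem_coe.2 (Finset.mem_filter.2 ⟨?_, (hπeq x y).1 h⟩))
    exact Finset.mem_union_left _ (Finset.sub_mem_sub hx hy)
  have hDX : ∀ x ∈ X, ∀ y ∈ X, π x = π y → x - y ∈ F := by
    intro x hx y hy h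
    rw [hmemF]
    refine AddSubgroup.subset_closure (Finset.mem_coe.2 (Finset.mem_filter.2 ⟨?_, (hπeq x y).1 h⟩))
    exact Finset.mem_union_right _ (Finset.sub_mem_sub hx hy)
  have hpet := Finset.pluennecke_petridis_inequality_add (A := X) (B := A) F hmin
  -- lower bound
  have hlow : F.card * (X.image π + A.image π).card ≤ (F + X + A).card := by
    have hrep : ∀ c : Q, ∃ z : Γ, c ∈ X.image π + A.image π →
        (z ∈ X + A ∧ π z = c) := by
      intro c
      by_cases hc : c ∈ X.image π + A.image π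
      · rw [← Finset.image_add] at hc
        obtain ⟨z, hz, h⟩ := Finset.mem_image.1 hc
        exact ⟨z, fun _ => ⟨hz, h⟩⟩
      · exact ⟨0, fun h => absurd h hc⟩
    choose r hr using hrep
    rw [← Finset.card_product]
    refine Finset.card_le_card_of_injOn (fun p => p.1 + r p.2) ?_ ?_
    · intro p hp
      obtain ⟨hp1, hp2⟩ := Finset.mem_product.1 (Finset.mem_coe.1 hp)
      refine Finset.mem_coe.2 ?_
      rw [add_assoc]
      exact Finset.add_mem_add hp1 (hr _ hp2).1
    · intro p hp q hq h
      obtain ⟨hp1, hp2⟩ := Finset.mem_product.1 (Finset.mem_coe.1 hp)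
      obtain ⟨hq1, hq2⟩ := Finset.mem_product.1 (Finset.mem_coe.1 hq)
      simp only at h
      have hz : ∀ f ∈ F, π f = 0 := by
        intro f hf
        exact (hker f).2 (htor f ((hmemF f).1 hf))
      have h1 := congrArg π h
      rw [map_add, map_add, hz _ hp1, hz _ hq1, zero_add, zero_add, (hr _ hp2).2, (hr _ hq2).2] at h1
      rw [h1] at h
      exact Prod.ext (add_right_cancel h) h1
  -- upper bound
  have hup : (F + X).card ≤ F.card * (X.image π).card := by
    have hrep : ∀ c : Q, ∃ z : Γ, c ∈ X.image π → (z ∈ X ∧ π z = c) := by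
      intro c
      by_cases hc : c ∈ X.image π
      · obtain ⟨z, hz, h⟩ := Finset.mem_image.1 hc
        exact ⟨z, fun _ => ⟨hz, h⟩⟩
      · exact ⟨0, fun h => absurd h hc⟩
    choose r hr using hrep
    rw [← Finset.card_product]
    refine (Finset.card_le_card (?_ : F + X ⊆
      (F ×ˢ X.image π).image (fun p => p.1 + r p.2))).trans Finset.card_image_le
    intro z hz
    obtain ⟨f, hf, x, hx, rfl⟩ := Finset.mem_add.1 hz
    have hc := Finset.mem_image_of_mem π hx
    refine Finset.mem_image.2 ⟨(f + (x - r (π x)), π x), Finset.mem_product.2 ⟨?_, hc⟩, ?_⟩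
    · rw [hmemF]
      exact T₀.add_mem ((hmemF f).1 hf)
        ((hmemF _).1 (hDX x hx _ (hr _ hc).1 (hr _ hc).2.symm))
    · simp only
      abel
  refine ⟨X.image π, Finset.image_subset_image hXA, hXne.image _, ?_⟩
  have h1 : ((F.card * (X.image π + A.image π).card : ℕ) : ℝ) * X.card ≤
      (X + A).card * ((F.card * (X.image π).card : ℕ) : ℝ) := by
    have h2 : (F.card * (X.image π + A.image π).card) * X.card ≤
        (X + A).card * (F.card * (X.image π).card) :=
      (Nat.mul_le_mul_right _ hlow).trans (hpet.trans (Nat.mul_le_mul_left _ hup))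
    exact_mod_cast h2
  push_cast at h1
  have h3 : ((X + A).card : ℝ) * (F.card * (X.image π).card) ≤
      (K * X.card) * (F.card * (X.image π).card) :=
    mul_le_mul_of_nonneg_right hX (by positivity)
  have h4 : (F.card * X.card : ℝ) * ((X.image π + A.image π).card : ℝ) ≤
      (F.card * X.card : ℝ) * (K * (X.image π).card) := by
    calc (F.card * X.card : ℝ) * ((X.image π + A.image π).card : ℝ)
        = F.card * (X.image π + A.image π).card * X.card := by ring
      _ ≤ (K * X.card) * (F.card * (X.image π).card) := h1.trans h3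
      _ = _ := by ring
  exact le_of_mul_le_mul_left h4 (by positivity)

end V5helper1.SR
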