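import Pool.Agent.V5helper1.SR.Final

/-!
# The weak polynomial Freiman-Ruzsa theorem with the sharp rank

Let `|A + A| ≤ K |A|` in an abelian group `Γ` and let `0 < ε ≤ 1`.

(1) `A` is covered by at most `K ^ (2400 / ε ^ 2)` cosets of `⟨S⟩ + (elements of finite order)`, where
`S` has at most `(1 + ε) log₂ K` elements. In a torsion-free group the cosets are those of `⟨S⟩`.
(2) The constant `1` in front of `log₂ K` is optimal: for `K = 2 ^ m` there are sets in `ℤ ^ m` with
doubling at most `K` that are not covered by fewer than `N` cosets of a subgroup with fewer than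
`m = log₂ K` generators, with `N` as large as we please.

So `log₂ K` is the exact threshold for the rank in the weak form of the polynomial Freiman-Ruzsa
conjecture for torsion-free groups with polynomially many cosets (the starting result `WeakMarton`
and Gowers, Green, Manners and Tao have a multiple `480 log K`, `(40 / log 2) log K` of it). With
`ε = δ / log₂ K` the rank is at most `⌊log₂ K + δ⌋`, as in the theorem of Freiman and Bilu, and the number
of cosets is `exp (O (δ ^ (- 2) (log K) ^ 3))`.

Proof. Let `X ⊆ A` minimise `|X + A| / |X| ≤ K` and let `2 ^ k • X` be the set of the `2 ^ k x`. By the lemma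
of Petridis for the sets `2 ^ j • X`, `2 ^ j • A` we have `|2 ^ k • X + A| ≤ K ^ (k + 1) |X|`. For every
subgroup `M` this gives `H (X mod 2 ^ k M) ≤ H (X mod M) + (k + 1) log K` for the entropies of a
uniform random element of `X`: each binary digit costs `log K`, up to the factor `1 + 1 / k`. Let `M` be
minimal among the subgroups for which `H (X mod M)` is at most `O (1 / ε ^ 2)` times the doubling of
`X mod M`. The entropic theorem of Gowers, Green, Manners and Tao for groups killed by `2 ^ k`
(with a constant `O (k)`, starting library) and the minimality show that `X` is almost uniform on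
`M / 2 ^ k M` in the strong sense that `log [M : 2 ^ k M] ≤ (1 + ε / 3) (H (X mod 2 ^ k M) - H (X mod M))`.
Hence `k rank (M) log 2 ≤ (1 + ε / 3) (k + 1) log K`, and `k = ⌈3 / ε⌉`.
-/

set_option autoImplicit false
open scoped Pointwise

namespace Pool.Agent.V5helper1.SR.SharpRank

universe u

/-- **Weak polynomial Freiman-Ruzsa theorem with the sharp rank**, and its optimality. -/
theorem sharpRank :
    (∀ (Γ : Type u) [AddCommGroup Γ] [DecidableEq Γ] (K ε : ℝ) (A : Finset Γ), A.Nonempty →
      ((A + A).card : ℝ) ≤ K * (A.card : ℝ) → 0 < ε → ε ≤ 1 →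
      ∃ S T : Finset Γ, (S.card : ℝ) ≤ (1 + ε) * Real.logb 2 K ∧ T ⊆ A ∧
        (T.card : ℝ) ≤ K ^ (2400 / ε ^ 2) ∧
        ∀ a ∈ A, ∃ t ∈ T, ∃ o : Γ, (∃ n : ℕ, n ≠ 0 ∧ n • o = 0) ∧
          a - t - o ∈ AddSubgroup.closure (S : Set Γ)) ∧
    (∀ m N : ℕ, ∃ A : Finset (Fin m → ℤ), A.Nonempty ∧ (A + A).card ≤ 2 ^ m * A.card ∧
      ∀ S T : Finset (Fin m → ℤ), S.card < m →
        (∀ a ∈ A, ∃ t ∈ T, a - t ∈ AddSubgroup.closure (S : Set (Fin m → ℤ))) → N ≤ T.card) := by
  refine ⟨?_, ?_⟩
  · intro Γ _ d K ε A hA hK hε0 hε1
    have hd : d = (fun a b => Classical.propDecidable (a = b)) := Subsingleton.elim _ _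
    subst hd
    exact V5helper1.SR.upper hA hK hε0 hε1
  · intro m N
    have h := V5helper1.SR.lower m N
    convert h using 2

end Pool.Agent.V5helper1.SR.SharpRank
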