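import Pool.Agent.H137R2.Weak.Final
import Pool.Agent.H137R2.TwoPow.Main
set_option autoImplicit false

/-! The stage lemma for groups killed by `2 ^ k`, and the spreading of a random variable on a minimal
good subgroup. -/

open scoped Classical
set_option linter.unusedSectionVars false
set_option linter.unusedVariables false

namespace V5helper1.SR

open H137.PFR H137.TwoPow H137.Weak

variable {Ω Ωc : Type*} [Fintype Ω] [Fintype Ωc] {G : Type*} [AddCommGroup G]

/-- entropic PFR for a variable with values in a coset of a finite group killed by `2 ^ k` -/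
theorem pfr_coset_pow (k : ℕ) {wc : Ωc → ℝ} (hwc : Law wc) (Z : Ωc → G) (W : AddSubgroup G)
    [Finite W] (hW : ∀ x ∈ W, (2 ^ k) • x = 0) (hZ : ∀ ω ω', (Z ω : G ⧸ W) = Z ω') :
    ∃ W' ≤ W, 2 * Hg wc (fun ω => (Z ω : G ⧸ W')) + Real.log (Nat.card W') - Hg wc Z ≤
      49 * k * (Hg (prod wc wc) (fun p => Z p.1 - Z p.2) - Hg wc Z) := by
  have : Fintype W := Fintype.ofFinite W
  obtain ⟨ω₀⟩ := law_nonempty hwc
  have hmem : ∀ ω, Z ω - Z ω₀ ∈ W := by
    intro ω
    have h1 := hZ ω₀ ω
    rw [QuotientAddGroup.eq] at h1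
    have h2 : Z ω - Z ω₀ = -Z ω₀ + Z ω := by abel
    rw [h2]
    exact h1
  set T : Ωc → W := fun ω => ⟨Z ω - Z ω₀, hmem ω⟩ with hT
  have hτ : Law (push wc T) := law_push hwc T
  obtain ⟨G', -, hG'⟩ := H137.TwoPow.main hτ k
  have hTZ : ∀ ω ω', T ω = T ω' ↔ Z ω = Z ω' := by
    intro ω ω'
    rw [Subtype.ext_iff]
    change Z ω - Z ω₀ = Z ω' - Z ω₀ ↔ _
    exact sub_left_inj
  have e1 : ent (push wc T) = Hg wc Z := by
    rw [← Hg_congr hTZ, Hg_eq_H]
    rfl
  have e0 : H (push wc T) (fun x : W => (2 ^ k) • x) = 0 := by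
    rw [← Hg_eq_H]
    refine Hg_const hτ _ fun x y => ?_
    rw [Subtype.ext_iff]
    change (2 ^ k) • (x : G) = (2 ^ k) • (y : G)
    rw [hW x x.2, hW y y.2]
  have e2 : hsub (push wc T) (push wc T) = Hg (prod wc wc) (fun p => Z p.1 - Z p.2) := by
    unfold hsub
    rw [prod_push, H_push, ← Hg_eq_H]
    refine Hg_congr fun p q => ?_
    rw [Subtype.ext_iff]
    change (Z p.1 - Z ω₀) - (Z p.2 - Z ω₀) = (Z q.1 - Z ω₀) - (Z q.2 - Z ω₀) ↔ _
    rw [sub_sub_sub_cancel_right, sub_sub_sub_cancel_right]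
  refine ⟨G'.map W.subtype, ?_, ?_⟩
  · intro x hx
    obtain ⟨t, _, rfl⟩ := AddSubgroup.mem_map.1 hx
    exact t.2
  · have hcard : Nat.card (G'.map W.subtype) = Nat.card G' :=
      AddSubgroup.card_map_of_injective W.subtype_injective
    have e3 : entMod (push wc T) G' = Hg wc (fun ω => (Z ω : G ⧸ G'.map W.subtype)) := by
      unfold entMod
      rw [H_push, ← Hg_eq_H]
      refine Hg_congr fun ω ω' => ?_
      rw [QuotientAddGroup.eq, QuotientAddGroup.eq]
      have h1 : -Z ω + Z ω' = ((-T ω + T ω' : W) : G) := by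
        push_cast
        change _ = -(Z ω - Z ω₀) + (Z ω' - Z ω₀)
        abel
      rw [h1]
      constructor
      · intro h
        exact AddSubgroup.mem_map.2 ⟨_, h, rfl⟩
      · intro h
        obtain ⟨u, hu, hu2⟩ := AddSubgroup.mem_map.1 h
        have : u = -T ω + T ω' := Subtype.ext hu2
        rw [← this]
        exact hu
    rw [hcard]
    rw [e1, e2, e3, e0] at hG'
    linarith

/-- **Stage lemma** for groups killed by `2 ^ k`. -/
theorem stage_pow (k : ℕ) {w : Ω → ℝ} (hw : Law w) (X : Ω → G) (W : AddSubgroup G) [Finite W]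
    (hW : ∀ x ∈ W, (2 ^ k) • x = 0) :
    ∃ W' ≤ W, 2 * Hg w (fun ω => (X ω : G ⧸ W')) + Real.log (Nat.card W') ≤
      Hg w X + Hg w (fun ω => (X ω : G ⧸ W)) +
        (98 * k + 2) * (kap w X - kap w (fun ω => (X ω : G ⧸ W))) := by
  obtain ⟨C, hC⟩ := exists_code hw (fun ω => (X ω : G ⧸ W))
  obtain ⟨c, hc, hsel⟩ := select hw X C
  have hwc := law_cw hw C hc
  have hZ : ∀ ω ω' : {ω : Ω // C ω = c}, ((fun ω : {ω : Ω // C ω = c} => X ω.1) ω : G ⧸ W) =
      ((fun ω : {ω : Ω // C ω = c} => X ω.1) ω' : G) := by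
    intro ω ω'
    exact (hC _ _).2 (ω.2.trans ω'.2.symm)
  obtain ⟨W', hW', hpfr⟩ :=
    pfr_coset_pow k hwc (fun ω : {ω : Ω // C ω = c} => X ω.1) W hW hZ
  have hdbl := fibre_dbl hw hwc X (fun ω : {ω : Ω // C ω = c} => X ω.1) W hZ
  have htri := tri hw hwc X (fun ω : {ω : Ω // C ω = c} => X ω.1) W'
  have hfib := fibring hw X (QuotientAddGroup.mk' W)
  have g1 : Hg w C = Hg w (fun ω => (X ω : G ⧸ W)) := (Hg_congr hC).symm
  have g2 : Hg (prod w w) (fun p => (X p.1 - X p.2, C p.2)) =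
      Hg (prod w w) (fun p => (X p.1 - X p.2, (X p.2 : G ⧸ W))) :=
    Hg_congr fun p q => by simp only [Prod.mk.injEq, hC]
  have g3 : Hg w (fun ω => (X ω, C ω)) = Hg w X :=
    Hg_congr fun ω ω' => by
      simp only [Prod.mk.injEq, ← hC]
      constructor
      · intro h
        exact h.1
      · intro h
        exact ⟨h, by rw [h]⟩
  rw [g1, g2, g3] at hsel
  have g4 : Hg (prod w w) (fun p => (X p.1 - X p.2, (X p.2 : G ⧸ W))) ≤
      Hg w X + Hg w (fun ω => (X ω : G ⧸ W)) + (kap w X - kap w (fun ω => (X ω : G ⧸ W))) := hfib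
  refine ⟨W', hW', ?_⟩
  set Δ := kap w X - kap w (fun ω => (X ω : G ⧸ W)) with hΔ
  have hd : Hg (prod (cw w C c) (cw w C c)) (fun p => X p.1.1 - X p.2.1) -
      Hg (cw w C c) (fun ω => X ω.1) ≤ 2 * Δ := by linarith
  have hk : (49 * (k : ℝ)) * (Hg (prod (cw w C c) (cw w C c)) (fun p => X p.1.1 - X p.2.1) -
      Hg (cw w C c) (fun ω => X ω.1)) ≤ 49 * k * (2 * Δ) :=
    mul_le_mul_of_nonneg_left hd (by positivity)
  have hpfr' := hpfr.trans hk
  linarith

section pair

variable {w : Ω → ℝ} {N M : AddSubgroup G}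

/-- the stage lemma for a pair `N ≤ M` with `2 ^ k M ≤ N` -/
theorem stage_pair_pow (k : ℕ) (hw : Law w) (X : Ω → G) (h : N ≤ M) (hfin : N.relIndex M ≠ 0)
    (h2 : ∀ x ∈ M, (2 ^ k) • x ∈ N) :
    ∃ N' : AddSubgroup G, N ≤ N' ∧ N' ≤ M ∧
      2 * hh w X N' + Real.log (N.relIndex N') ≤
        hh w X N + hh w X M + (98 * k + 2) * (kk w X N - kk w X M) := by
  have hc := card_map_mk N M
  have : Finite (M.map (QuotientAddGroup.mk' N)) :=
    Nat.finite_of_card_ne_zero (by rw [hc]; exact hfin)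
  have hW : ∀ x ∈ M.map (QuotientAddGroup.mk' N), (2 ^ k) • x = 0 := by
    intro x hx
    obtain ⟨m, hm, rfl⟩ := AddSubgroup.mem_map.1 hx
    rw [← map_nsmul]
    exact (QuotientAddGroup.eq_zero_iff (N := N) ((2 ^ k) • m)).2 (h2 m hm)
  obtain ⟨W', hW', hst⟩ :=
    stage_pow k hw (fun ω => (X ω : G ⧸ N)) (M.map (QuotientAddGroup.mk' N)) hW
  rw [Hg_mk_mk, Hg_mk_mk, kap_mk_mk, comap_map_mk h] at hst
  refine ⟨W'.comap (QuotientAddGroup.mk' N), ?_, ?_, ?_⟩
  · intro x hx
    rw [AddSubgroup.mem_comap]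
    have h1 : QuotientAddGroup.mk' N x = 0 := (QuotientAddGroup.eq_zero_iff (N := N) x).2 hx
    rw [h1]
    exact W'.zero_mem
  · have h1 := AddSubgroup.comap_mono (f := QuotientAddGroup.mk' N) hW'
    rw [comap_map_mk h] at h1
    exact h1
  · have h1 : N.relIndex (W'.comap (QuotientAddGroup.mk' N)) = Nat.card W' := by
      rw [← card_map_mk, AddSubgroup.map_comap_eq_self_of_surjective
        (QuotientAddGroup.mk'_surjective N)]
    rw [h1]
    exact hst

/-- **Spreading.** Let `M` be minimal: every subgroup `L < M` has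
`H(X mod L) - H(X mod M) > lam (κ(X mod L) - κ(X mod M))`. Then `X` is nearly uniform on `M / N` for
every `N` with `2 ^ k M ≤ N ≤ M`. -/
theorem spread (k : ℕ) (hw : Law w) (X : Ω → G) {lam : ℝ} (hlam : 0 < lam)
    (hQ : 98 * k + 2 ≤ lam)
    (hmin : ∀ L ≤ M, hh w X L - hh w X M ≤ lam * (kk w X L - kk w X M) → L = M) (n : ℕ) :
    ∀ N : AddSubgroup G, N ≤ M → (∀ x ∈ M, (2 ^ k) • x ∈ N) → N.relIndex M ≠ 0 →
      N.relIndex M ≤ n →
      Real.log (N.relIndex M) ≤ (1 + (98 * k + 2) / lam) * (hh w X N - hh w X M) := by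
  induction n with
  | zero =>
    intro N _ _ h0 hn
    exact absurd (Nat.le_zero.1 hn) h0
  | succ n ih =>
    intro N hN h2 h0 hn
    by_cases hNM : N = M
    · rw [hNM, AddSubgroup.relIndex_self, Nat.cast_one, Real.log_one, sub_self, mul_zero]
    · have hθ0 : (0 : ℝ) ≤ (98 * k + 2) / lam := by positivity
      have hθ1 : (98 * (k : ℝ) + 2) / lam ≤ 1 := by
        rw [div_le_one hlam]; exact hQ
      obtain ⟨N', hN', hN'M, hst⟩ := stage_pair_pow k hw X hN h0 h2
      have hanti := hh_anti hw X hN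
      have hanti' := hh_anti hw X hN'M
      have hstrict : lam * (kk w X N - kk w X M) < hh w X N - hh w X M := by
        by_contra hcon
        push Not at hcon
        exact hNM (hmin N hN hcon)
      have hd : (98 * (k : ℝ) + 2) * (kk w X N - kk w X M) ≤
          (98 * k + 2) / lam * (hh w X N - hh w X M) := by
        rw [div_mul_eq_mul_div, le_div_iff₀ hlam]
        have h5 : (0 : ℝ) ≤ 98 * k + 2 := by positivity
        nlinarith [mul_le_mul_of_nonneg_left hstrict.le h5]
      have hkk := kk_anti hw X hN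
      have hapos : 0 < hh w X N - hh w X M := by
        have h6 : 0 ≤ lam * (kk w X N - kk w X M) := mul_nonneg hlam.le (by linarith)
        linarith
      have hne : N' ≠ N := by
        rintro rfl
        rw [AddSubgroup.relIndex_self, Nat.cast_one, Real.log_one] at hst
        nlinarith
      have hmul := AddSubgroup.relIndex_mul_relIndex N N' M hN' hN'M
      have h0a : N.relIndex N' ≠ 0 := by
        intro h
        rw [h, zero_mul] at hmul
        exact h0 hmul.symm
      have h0b : N'.relIndex M ≠ 0 := by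
        intro h
        rw [h, mul_zero] at hmul
        exact h0 hmul.symm
      have h1 : N.relIndex N' ≠ 1 := by
        intro h
        rw [AddSubgroup.relIndex_eq_one] at h
        exact hne (le_antisymm h hN')
      have hlt : N'.relIndex M ≤ n := by
        have h3 : 2 ≤ N.relIndex N' := by omega
        have h4 : 2 * N'.relIndex M ≤ N.relIndex M := by
          rw [← hmul]
          exact Nat.mul_le_mul_right _ h3
        have h5 : 0 < N'.relIndex M := Nat.pos_of_ne_zero h0b
        omega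
      have hih := ih N' hN'M (fun x hx => hN' (h2 x hx)) h0b hlt
      rw [← hmul, Nat.cast_mul, Real.log_mul (by exact_mod_cast h0a) (by exact_mod_cast h0b)]
      have h7 : (98 * (k : ℝ) + 2) / lam * (hh w X N' - hh w X M) ≤ hh w X N' - hh w X M := by
        have h8 : 0 ≤ hh w X N' - hh w X M := by linarith
        nlinarith
      nlinarith

end pair

/-- minimal good subgroup, with an arbitrary constant -/
theorem exists_min_good' {w : Ω → ℝ} (hw : Law w) (X : Ω → G) {lam : ℝ} (hlam : 0 ≤ lam) :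
    ∃ M : AddSubgroup G, M.FG ∧ hh w X M ≤ lam * kk w X M ∧
      ∀ L ≤ M, hh w X L - hh w X M ≤ lam * (kk w X L - kk w X M) → L = M := by
  set S : Set ℕ := {n | ∃ L : AddSubgroup G, hh w X L ≤ lam * kk w X L ∧
    ((diffs X).filter (fun x => x ∈ L)).card = n} with hS
  have hne : S.Nonempty := by
    refine ⟨_, ⊤, ?_, rfl⟩
    have h1 : hh w X ⊤ = 0 := Hg_const hw _ (fun ω ω' => by
      rw [QuotientAddGroup.eq]
      exact AddSubgroup.mem_top _)
    have h2 := kk_nonneg hw X ⊤
    rw [h1]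
    positivity
  obtain ⟨L, hL, hLn⟩ := Nat.sInf_mem hne
  have hM : hh w X (red X L) ≤ lam * kk w X (red X L) := by
    rw [hh_red]
    have := kk_anti hw X (red_le X L)
    nlinarith
  refine ⟨red X L, red_fg X L, hM, ?_⟩
  intro L' hL' hgood'
  have hgood : hh w X L' ≤ lam * kk w X L' := by nlinarith
  have h1 : sInf S ≤ ((diffs X).filter (fun x => x ∈ L')).card := Nat.sInf_le ⟨L', hgood, rfl⟩
  rw [← hLn] at h1
  have hsub : (diffs X).filter (fun x => x ∈ L') ⊆ (diffs X).filter (fun x => x ∈ L) := by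
    intro x hx
    rw [Finset.mem_filter] at hx ⊢
    exact ⟨hx.1, red_le X L (hL' hx.2)⟩
  have heq := Finset.eq_of_subset_of_card_le hsub h1
  refine le_antisymm hL' ?_
  unfold red
  rw [← heq, AddSubgroup.closure_le]
  intro x hx
  exact (Finset.mem_filter.1 (Finset.mem_coe.1 hx)).2

end V5helper1.SR
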